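import Pool.Agent.E8helper98.WD.Fin

set_option autoImplicit false

/-!
# Non-obvious divergent orbits in `SL(n, ℝ) / SL(n, ℤ)`

`G = SL(n, ℝ)` with the `ℚ`-structure of `SL_n`, so `rank_ℚ G = n - 1`; `Γ` is any subgroup of `G` commensurable
with `SL(n, ℤ)`. For every closed connected subgroup `D` of a maximal `ℝ`-split torus of `G` with
`1 ≤ dim D < rank_ℚ G` there is a dense set of points `x ∈ G / Γ` for which the orbit `D x` is divergent but not
obvious.
-/

namespace Pool.Agent.Results.MP_bb6588_an.SpecialLinearH98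

open Matrix Filter Topology Module

/-- `G = SL(n, ℝ)` -/
abbrev G (n : ℕ) : Type := Matrix.SpecialLinearGroup (Fin n) ℝ

/-- `SL(n, ℤ)`, as a subgroup of `SL(n, ℝ)` -/
def SLZ (n : ℕ) : Subgroup (G n) := (Matrix.SpecialLinearGroup.map (Int.castRingHom ℝ)).range

/-- the diagonal matrix with entries `exp (x i)`, where `∑ x i = 0` -/
noncomputable def diagExp {n : ℕ} (x : Fin n → ℝ) (hx : ∑ i, x i = 0) : G n :=
  ⟨Matrix.diagonal fun i => Real.exp (x i), by rw [Matrix.det_diagonal, ← Real.exp_sum, hx, Real.exp_zero]⟩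

theorem diagExp_eq {n : ℕ} (x : Fin n → ℝ) (hx : ∑ i, x i = 0) :
    diagExp x hx = Pool.Agent.E8helper98.WD.dexp x hx := rfl

/-- The subgroup `D = k exp(𝔡) k⁻¹` of `G`, for a subspace `𝔡` of `{x ∈ ℝⁿ : ∑ x i = 0}` (the Lie algebra of the
group `A` of diagonal matrices of determinant `1`) and `k ∈ G`. The maximal `ℝ`-split tori of `G` are the groups
`k A k⁻¹`, and their closed connected subgroups are exactly these groups `D`; `dim D = dim 𝔡`. -/
noncomputable def torusSubgroup {n : ℕ} (k : G n) (𝔡 : Submodule ℝ (Fin n → ℝ)) (h𝔡 : ∀ x ∈ 𝔡, ∑ i, x i = 0) :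
    Subgroup (G n) where
  carrier := {g | ∃ (x : Fin n → ℝ) (hx : x ∈ 𝔡), g = k * diagExp x (h𝔡 x hx) * k⁻¹}
  one_mem' := by
    refine ⟨0, 𝔡.zero_mem, ?_⟩
    have : diagExp (0 : Fin n → ℝ) (h𝔡 0 𝔡.zero_mem) = 1 := by
      apply Subtype.ext
      simp [diagExp]
    rw [this]
    simp
  mul_mem' := by
    rintro _ _ ⟨x, hx, rfl⟩ ⟨y, hy, rfl⟩
    refine ⟨y + x, 𝔡.add_mem hy hx, ?_⟩
    have := Pool.Agent.E8helper98.WD.dexp_add y x (h𝔡 y hy) (h𝔡 x hx) (h𝔡 _ (𝔡.add_mem hy hx))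
    rw [diagExp_eq, diagExp_eq, diagExp_eq, this]
    group
  inv_mem' := by
    rintro _ ⟨x, hx, rfl⟩
    refine ⟨-x, 𝔡.neg_mem hx, ?_⟩
    have := Pool.Agent.E8helper98.WD.dexp_inv x (h𝔡 x hx) (h𝔡 _ (𝔡.neg_mem hx))
    rw [diagExp_eq, diagExp_eq, ← this]
    group

/-- A `ℚ`-representation `SL_n → GL_N`: a homomorphism on `SL(n, ℝ)` all of whose matrix entries are polynomials with
rational coefficients in the entries of the argument. -/
structure QRep (n N : ℕ) where
  /-- the homomorphism -/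
  toHom : G n →* Matrix (Fin N) (Fin N) ℝ
  /-- the polynomials -/
  poly : Fin N → Fin N → MvPolynomial (Fin n × Fin n) ℚ
  toHom_eq : ∀ g i j, toHom g i j =
    MvPolynomial.aeval (fun q : Fin n × Fin n => (g : Matrix (Fin n) (Fin n) ℝ) q.1 q.2) (poly i j)

/-- The orbit `D x` is divergent: `d x` leaves every compact subset of `G / Γ` as `d → ∞` in `D`. -/
def IsDivergent {n : ℕ} (D Γ : Subgroup (G n)) (x : G n ⧸ Γ) : Prop :=
  Tendsto (fun d : D => (d : G n) • x) (cocompact D) (cocompact (G n ⧸ Γ))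

/-- The orbit `D g Γ` is obvious: there are finitely many `ℚ`-representations `ρ i` and nonzero rational vectors `v i`
such that for every sequence `d` in `D` tending to infinity there are an index `i` and a subsequence of `d` along
which `ρ i (d g) (v i)` tends to `0`. -/
def IsObvious {n : ℕ} (D : Subgroup (G n)) (g : G n) : Prop :=
  ∃ (l : ℕ) (N : Fin l → ℕ) (ρ : ∀ i, QRep n (N i)) (v : ∀ i, Fin (N i) → ℚ), (∀ i, v i ≠ 0) ∧
    ∀ d : ℕ → D, Tendsto d atTop (cocompact D) → ∃ (i : Fin l) (φ : ℕ → ℕ), StrictMono φ ∧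
      Tendsto (fun k => (ρ i).toHom ((d (φ k) : G n) * g) *ᵥ fun j => ((v i j : ℚ) : ℝ)) atTop (𝓝 0)

open Pool.Agent.E8helper98.WD in
/-- **Non-obvious divergent orbits.** Let `Γ` be a subgroup of `G = SL(n, ℝ)` commensurable with `SL(n, ℤ)` and `D` a
closed connected subgroup of a maximal `ℝ`-split torus of `G` with `0 < dim D < n - 1 = rank_ℚ G`. Then the points
`x ∈ G / Γ` for which the orbit `D x` is divergent but not obvious (for no representative `g` of `x`) are dense in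
`G / Γ`. -/
theorem result (n : ℕ) (Γ : Subgroup (G n)) (hΓ : Γ.Commensurable (SLZ n)) (k : G n)
    (𝔡 : Submodule ℝ (Fin n → ℝ)) (h𝔡 : ∀ x ∈ 𝔡, ∑ i, x i = 0) (hpos : 0 < finrank ℝ 𝔡)
    (hlt : finrank ℝ 𝔡 < n - 1) :
    Dense {x : G n ⧸ Γ | IsDivergent (torusSubgroup k 𝔡 h𝔡) Γ x ∧
      ∀ g : G n, (g : G n ⧸ Γ) = x → ¬ IsObvious (torusSubgroup k 𝔡 h𝔡) g} := by
  classical
  have hrel : (SZ (Fin n)).relIndex Γ ≠ 0 := hΓ.2
  have hn3 : 3 ≤ n := by omega
  -- the line and the index set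
  obtain ⟨J, hJ, μ, hμ𝔡, hμ0, hμJ, hsp⟩ := cut (finrank ℝ 𝔡 - 1) 𝔡 (by omega)
  have hμ : ∑ i, μ i = 0 := h𝔡 μ hμ𝔡
  obtain ⟨⟨p, hp⟩, ⟨m, hm⟩⟩ := pos_neg hμ hμ0
  have hpm : p ≠ m := by
    rintro rfl
    linarith
  set I : Set (Fin n) := {i | i ∉ J} with hI
  have hpI : p ∈ I := fun h => hp.ne' (hμJ p h)
  have hmI : m ∈ I := fun h => hm.ne (hμJ m h)
  obtain ⟨c, hc⟩ : ∃ c, c ∉ insert p (insert m J) := by
    by_contra hcon
    push Not at hcon
    have h1 : (Finset.univ : Finset (Fin n)) ⊆ insert p (insert m J) := fun i _ => hcon i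
    have h2 := Finset.card_le_card h1
    have h3 := Finset.card_insert_le p (insert m J)
    have h4 := Finset.card_insert_le m J
    rw [Finset.card_univ, Fintype.card_fin] at h2
    omega
  simp only [Finset.mem_insert, not_or] at hc
  obtain ⟨hcp, hcm, hcJ⟩ := hc
  have hcI : c ∈ I := hcJ
  have hIμ : ∀ i, i ∉ I → μ i = 0 := fun i hi => hμJ i (not_not.1 hi)
  -- countability of `Γ`
  have hΓc : (Γ : Set (G n)).Countable := by
    obtain ⟨F, hF⟩ := exists_reps hrel
    have hZc : (SZ (Fin n) : Set (G n)).Countable := by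
      have : Countable (Matrix.SpecialLinearGroup (Fin n) ℤ) := by
        have : Countable (Matrix (Fin n) (Fin n) ℤ) := inferInstanceAs (Countable (Fin n → Fin n → ℤ))
        exact Subtype.countable
      exact Set.countable_range _
    refine Set.Countable.mono ?_ (F.countable_toSet.image2 hZc (fun a b => a * b))
    intro γ hγ
    obtain ⟨f, hf, δ, hδ, rfl⟩ := hF γ hγ
    exact Set.mem_image2_of_mem hf hδ
  rw [dense_iff_inter_open]
  intro V hV hVne
  -- a rational point `q` with `k q` over `V`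
  set V' : Set (G n) := {g | ((k * g : G n) : G n ⧸ Γ) ∈ V} with hV'
  have hV'o : IsOpen V' := by
    have hcont : Continuous (fun g : G n => ((k * g : G n) : G n ⧸ Γ)) :=
      continuous_quot_mk.comp (continuous_const.mul continuous_id)
    exact hV.preimage hcont
  have hV'ne : V'.Nonempty := by
    obtain ⟨x, hx⟩ := hVne
    obtain ⟨g, rfl⟩ := QuotientGroup.mk_surjective x
    refine ⟨k⁻¹ * g, ?_⟩
    change ((k * (k⁻¹ * g) : G n) : G n ⧸ Γ) ∈ V
    rwa [mul_inv_cancel_left]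
  have : Nontrivial (Fin n) := ⟨⟨p, m, hpm⟩⟩
  obtain ⟨q, hqV, hq⟩ := (dense_iff_inter_open.1 (dense_rat (ι := Fin n))) V' hV'o hV'ne
  -- the point
  have hN : {g : G n | g * q ∈ V'} ∈ 𝓝 (1 : G n) := by
    have hcont : Continuous (fun g : G n => g * q) := continuous_id.mul continuous_const
    exact (hV'o.preimage hcont).mem_nhds (by rw [Set.mem_preimage, one_mul]; exact hqV)
  obtain ⟨g0, hg0N, hg0C, hg0w, hg0O⟩ := base hpm hpI hmI hcI hcp hcm μ hμ hIμ hp hm hN
    (Y := (fun γ => q * γ) '' (Γ : Set (G n))) (hΓc.image _)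
  refine ⟨((k * (g0 * q) : G n) : G n ⧸ Γ), hg0N, ?_, ?_⟩
  · -- divergence
    have hfix : ∀ j ∈ J, (g0 : Matrix (Fin n) (Fin n) ℝ) *ᵥ Pi.single j 1 = Pi.single j 1 ∧
        Pi.single j 1 ᵥ* ((g0⁻¹ : G n) : Matrix (Fin n) (Fin n) ℝ) = Pi.single j 1 := fun j hj =>
      fix_of_closure hg0C (I := I) (fun h => h hj)
    rw [IsDivergent, (hasBasis_cocompact).tendsto_right_iff]
    intro K hK
    obtain ⟨ε, hε, hns⟩ := not_short_quot hrel hK
    obtain ⟨C, hC, hshort⟩ := short_mul k hq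
    obtain ⟨R, hR⟩ := diverge 𝔡 h𝔡 J μ hμ𝔡 hsp hfix hg0w (ε := ε / C) (by positivity)
    -- the compact part of `D`
    let f : 𝔡 → torusSubgroup k 𝔡 h𝔡 := fun x => ⟨k * diagExp x (h𝔡 x x.2) * k⁻¹, x, x.2, rfl⟩
    have hf : Continuous f := by
      refine Continuous.subtype_mk ?_ _
      refine (continuous_const.mul ?_).mul continuous_const
      refine Continuous.subtype_mk ?_ _
      refine Continuous.matrix_diagonal ?_
      exact continuous_pi fun i => Real.continuous_exp.comp ((continuous_apply i).comp continuous_subtype_val)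
    have hcomp : IsCompact (f '' Metric.closedBall 0 R) := (isCompact_closedBall _ _).image hf
    filter_upwards [hcomp.compl_mem_cocompact] with d hd hdK
    obtain ⟨x, hx, hdx⟩ := d.2
    have hxR : R ≤ ‖x‖ := by
      by_contra hcon
      push Not at hcon
      apply hd
      refine ⟨⟨x, hx⟩, ?_, ?_⟩
      · rw [mem_closedBall_zero_iff]
        exact hcon.le
      · exact Subtype.ext hdx.symm
    have h1 := hshort _ _ (by positivity) (hR x hx hxR)
    have h2 : C * (ε / C) = ε := by field_simp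
    rw [h2] at h1
    refine hns _ ?_ h1
    have h3 : (k * (dexp x (h𝔡 x hx) * g0) * q : G n) = (d : G n) * (k * (g0 * q)) := by
      rw [hdx, diagExp_eq]
      group
    rw [h3]
    exact hdK
  · -- not obvious
    rintro g hg ⟨l, N, ρ, v, hv, hobv⟩
    have hγ : (k * (g0 * q))⁻¹ * g ∈ Γ := QuotientGroup.eq.1 hg.symm
    set γ := (k * (g0 * q))⁻¹ * g with hγdef
    have hgeq : g = k * (g0 * (q * γ)) := by
      rw [hγdef]
      group
    have hsum : ∀ j : ℕ, ∑ i, ((j : ℝ) * μ i) = 0 := fun j => by rw [← Finset.mul_sum, hμ, mul_zero]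
    let d : ℕ → torusSubgroup k 𝔡 h𝔡 := fun j =>
      ⟨k * diagExp (fun i => (j : ℝ) * μ i) (hsum j) * k⁻¹, (fun i => (j : ℝ) * μ i), 𝔡.smul_mem (j : ℝ) hμ𝔡, rfl⟩
    have hd : Tendsto d atTop (cocompact _) := by
      rw [(hasBasis_cocompact).tendsto_right_iff]
      intro K hK
      have hcont : Continuous (fun a : torusSubgroup k 𝔡 h𝔡 =>
          ((k⁻¹ * (a : G n) * k : G n) : Matrix (Fin n) (Fin n) ℝ) p p) := by
        have h1 : Continuous (fun a : torusSubgroup k 𝔡 h𝔡 => (k⁻¹ * (a : G n) * k : G n)) :=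
          (continuous_const.mul continuous_subtype_val).mul continuous_const
        exact (continuous_subtype_val.comp h1).matrix_elem p p
      obtain ⟨B, hB⟩ := (hK.image hcont).bddAbove
      have hexp : Tendsto (fun j : ℕ => Real.exp ((j : ℝ) * μ p)) atTop atTop :=
        Real.tendsto_exp_atTop.comp (tendsto_natCast_atTop_atTop.atTop_mul_const hp)
      filter_upwards [hexp.eventually_gt_atTop B] with j hj hjK
      have h2 := hB ⟨d j, hjK, rfl⟩
      have h3 : (k⁻¹ * ((d j : torusSubgroup k 𝔡 h𝔡) : G n) * k : G n) = diagExp (fun i => (j : ℝ) * μ i) (hsum j) := by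
        change k⁻¹ * (k * diagExp (fun i => (j : ℝ) * μ i) (hsum j) * k⁻¹) * k = _
        group
      simp only [h3] at h2
      have h4 : ((diagExp (fun i => (j : ℝ) * μ i) (hsum j) : G n) : Matrix (Fin n) (Fin n) ℝ) p p =
          Real.exp ((j : ℝ) * μ p) := by
        change (Matrix.diagonal fun i => Real.exp ((j : ℝ) * μ i)) p p = _
        rw [Matrix.diagonal_apply_eq]
      rw [h4] at h2
      linarith
    obtain ⟨i, φ, hφ, hT⟩ := hobv d hd
    have hT2 : Tendsto (fun j => (ρ i).toHom k⁻¹ *ᵥ ((ρ i).toHom ((d (φ j) : G n) * g) *ᵥ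
        fun j => ((v i j : ℚ) : ℝ))) atTop (𝓝 0) := by
      have hcont : Continuous (fun w : Fin (N i) → ℝ => (ρ i).toHom k⁻¹ *ᵥ w) :=
        continuous_const.matrix_mulVec continuous_id
      have := (hcont.tendsto 0).comp hT
      rwa [mulVec_zero] at this
    refine hg0O (N i) (ρ i).toHom (ρ i).poly (ρ i).toHom_eq (v i) (hv i) (q * γ) ⟨γ, hγ, rfl⟩
      (fun j => (φ j : ℝ)) (tendsto_natCast_atTop_atTop.comp hφ.tendsto_atTop) (fun j => hsum (φ j)) ?_
    refine hT2.congr fun j => ?_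
    rw [mulVec_mulVec, ← map_mul, hgeq]
    congr 2
    change k⁻¹ * (k * diagExp (fun i => ((φ j : ℕ) : ℝ) * μ i) (hsum (φ j)) * k⁻¹ * (k * (g0 * (q * γ)))) = _
    rw [diagExp_eq]
    group

end Pool.Agent.Results.MP_bb6588_an.SpecialLinearH98
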